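import Pool.Agent.W_28d874_h30.Pairs

namespace Pool.Agent.Results.MP_28d874_co.ContactStability

open Metric Set Filter Topology Pool.Agent.W_28d874_h30

/-- Maximal packings and contact numbers. Let `d ≥ 2` and let `N` be the Newton number of the unit
ball of `E^d`.
* If `E^d` has a maximal packing, then the largest number of ordered touching pairs in a packing of
  `n` unit balls is `N n - Θ(n^((d-1)/d))`.
* If `E^d` has no maximal packing, then there are `ε, δ > 0` such that no packing of `n` unit balls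
  has more than `(N - δ) n` ordered pairs of balls with centres at distance at most `2 + ε`.
* Stability: for all `R` and `η > 0` there are `ε, δ > 0` such that in every packing of `n` unit
  balls with at least `(N - δ) n` ordered pairs at distance at most `2 + ε`, all but at most `η n`
  centres `x` lie in a maximal packing that is `η`-close to the given one on the ball of radius `R`
  about `x`. -/
theorem result (d : ℕ) (hd : 2 ≤ d) :
    ((∃ P : Set (E d), IsMaximal P) → ∃ c : ℝ, 0 < c ∧ ∀ n : ℕ,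
      (newton d : ℝ) * n - 4 * d * 5 ^ (d - 1) * newton d * (n : ℝ) ^ (((d : ℝ) - 1) / d) ≤
          maxPairs d n 0 ∧
        (maxPairs d n 0 : ℝ) ≤ (newton d : ℝ) * n - c * (n : ℝ) ^ (((d : ℝ) - 1) / d)) ∧
    ((¬ ∃ P : Set (E d), IsMaximal P) → ∃ ε : ℝ, 0 < ε ∧ ∃ δ : ℝ, 0 < δ ∧ ∀ n : ℕ,
      (maxPairs d n ε : ℝ) ≤ ((newton d : ℝ) - δ) * n) ∧
    (∀ R η : ℝ, 0 < η → ∃ ε : ℝ, 0 < ε ∧ ∃ δ : ℝ, 0 < δ ∧
      ∀ F : Finset (E d), IsPacking (F : Set (E d)) →
        ((newton d : ℝ) - δ) * F.card ≤ nearPairs F ε →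
          ({x ∈ (F : Set (E d)) | ¬ ∃ M : Set (E d), IsMaximal M ∧ x ∈ M ∧
            CloseOn (F : Set (E d)) M x R η}.ncard : ℝ) ≤ η * F.card) := by
  have hd1 : 1 ≤ d := by omega
  refine ⟨?_, ?_, fun R η hη => stability hη⟩
  · rintro ⟨P, hP⟩
    obtain ⟨c, hc, hupper⟩ := upper_iso (d := d) hd
    refine ⟨c, hc, fun n => ⟨?_, ?_⟩⟩
    · obtain ⟨F, hFc, hF, hFn⟩ := lower hd1 hP n
      exact hFn.trans (by exact_mod_cast le_maxPairs hFc hF)
    · obtain ⟨F, hFc, hF, hFn⟩ := maxPairs_mem hd1 n 0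
      rw [← hFn, ← hFc]
      exact hupper F hF
  · intro hno
    obtain ⟨ε, hε, δ, hδ, hgap⟩ := gap hno
    refine ⟨ε, hε, δ, hδ, fun n => ?_⟩
    obtain ⟨F, hFc, hF, hFn⟩ := maxPairs_mem hd1 n ε
    rw [← hFn, ← hFc]
    exact hgap F hF

end Pool.Agent.Results.MP_28d874_co.ContactStability
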