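import Pool.Agent.W_28d874_h69.DistE

namespace Pool.Agent.Results.MP_28d874_co.LocalDistances

open Pool.Agent.W_28d874_h30 Pool.Agent.W_28d874_h69

/-- A ball with the largest possible number of neighbours has neighbours with many distances. Let
`d ≥ 1` and let `P` be the set of centres of a packing of unit balls in `E^d` in which the ball with
centre `x ∈ P` touches `N(B^d)` others. If the centres of these neighbours determine at most `s`
distances, then `(2/√3)^d ≤ (d+s choose s)` and `d < 32 s`. This applies to every ball of a maximal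
packing. -/
theorem result (d : ℕ) (hd : 1 ≤ d) (P : Set (E d)) (hP : IsPacking P) (x : E d) (hx : x ∈ P)
    (hfull : {y ∈ P | Touch x y}.ncard = newton d) (s : ℕ)
    (hs : {δ : ℝ | ∃ y ∈ P, ∃ z ∈ P, Touch x y ∧ Touch x z ∧ y ≠ z ∧ δ = dist y z}.ncard ≤ s) :
    (2 / Real.sqrt 3) ^ d ≤ ((d + s).choose s : ℝ) ∧ d < 32 * s :=
  ⟨many_distances_of_full hd hP hx hfull s hs,
    linear_of_choose hd (many_distances_of_full hd hP hx hfull s hs)⟩

end Pool.Agent.Results.MP_28d874_co.LocalDistances
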