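import Pool.Agent.W_28d874_h69.FinalA

namespace Pool.Agent.Results.MP_28d874_co.LocalPerfection

open Pool.Agent.W_28d874_h30 Pool.Agent.W_28d874_h69

/-- Maximal packings of unit balls are perfect, uniformly and locally: for every `d` there is a radius
`R > 0` such that for every maximal packing of `E^d` and every ball of radius `R` the only quadratic
form which vanishes on the differences of the centres of touching balls with centres in that ball is
`0`. -/
theorem result (d : ℕ) :
    ∃ R : ℝ, 0 < R ∧ ∀ P : Set (E d), IsMaximal P → ∀ p : E d, PerfectNear P p R :=
  perfectNear

end Pool.Agent.Results.MP_28d874_co.LocalPerfection
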