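import Pool.Agent.W_28d874_h69.FinalA

namespace Pool.Agent.Results.MP_28d874_co.MaximalLattices

open Pool.Agent.W_28d874_h30 Pool.Agent.W_28d874_h69

/-- Structure of the maximal lattice packings of unit balls in `E^d`, `d ≥ 1`: there is a finite list of
lattices such that every lattice `L` whose points are the centres of a maximal packing is isometric to
one of the list, is generated by its minimal vectors (the vectors of length `2`) and is rational (some
positive integer multiple of the inner product is integral on `L`). -/
theorem result (d : ℕ) (hd : 1 ≤ d) :
    ∃ F : Set (AddSubgroup (E d)), F.Finite ∧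
      ∀ L : AddSubgroup (E d), MaxLattice L →
        (∃ L' ∈ F, Congruent L' L) ∧ MinGenerated L ∧ ∃ m : ℕ, 0 < m ∧ IntegralWith m L := by
  have _ := hd
  obtain ⟨F, hF, h⟩ := finiteLattices d
  exact ⟨F, hF, fun L hL => ⟨h L hL, closure_min hL, rational hL⟩⟩

end Pool.Agent.Results.MP_28d874_co.MaximalLattices
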